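import Mathlib
import Pool.Agent.Lib.helper26.ExpII

set_option autoImplicit false

namespace Pool.Agent.Results.MP_952e1b_co.Types

open Real

/-- The sets FE^I_n(X) of the problem, for X listed increasingly as x 0 < x 1 < ... -/
def FE (x : ℕ → ℕ) : ℕ → Set ℕ
  | 0 => {x 0}
  | n + 1 => {z | ∃ y ∈ FE x n, z = y ^ x (n + 1)} ∪ FE x n ∪ {x (n + 1)}

/-- C is an exponential IP set of type I: it contains FE^I(X) for some infinite X. -/
def ExpIP (C : Set ℕ) : Prop := ∃ x : ℕ → ℕ, StrictMono x ∧ (⋃ n, FE x n) ⊆ C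

/-- The sets FE^II_n(X) of the problem, for X listed increasingly as x 0 < x 1 < ... -/
def FE2 (x : ℕ → ℕ) : ℕ → Set ℕ
  | 0 => {x 0}
  | n + 1 => {z | ∃ y ∈ FE2 x n, z = x (n + 1) ^ y} ∪ FE2 x n ∪ {x (n + 1)}

/-- C is an exponential IP set of type II: it contains FE^II(X) for some infinite X. -/
def ExpIP2 (C : Set ℕ) : Prop := ∃ x : ℕ → ℕ, StrictMono x ∧ (⋃ n, FE2 x n) ⊆ C

lemma FE_mono (x : ℕ → ℕ) : Monotone (FE x) :=
  monotone_nat_of_le_succ fun _ _ hz => Or.inl (Or.inr hz)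

lemma FE_self (x : ℕ → ℕ) (n : ℕ) : x n ∈ FE x n := by
  cases n with
  | zero => rfl
  | succ n => exact Or.inr rfl

lemma FE_pow (x : ℕ → ℕ) {n m y : ℕ} (h : n < m) (hy : y ∈ FE x n) : y ^ x m ∈ FE x m := by
  obtain ⟨k, rfl⟩ : ∃ k, m = k + 1 := ⟨m - 1, by omega⟩
  exact Or.inl (Or.inl ⟨y, FE_mono x (by omega) hy, rfl⟩)

noncomputable def LL (n : ℕ) : ℝ := log (log n)

lemma LL_pow {y e : ℕ} (hy : 2 ≤ y) (he : 1 ≤ e) : LL (y ^ e) = log e + LL y := by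
  have h1 : (1 : ℝ) < y := by exact_mod_cast hy
  have h2 : (0 : ℝ) < e := by exact_mod_cast he
  unfold LL
  push_cast
  rw [log_pow, log_mul h2.ne' (log_pos h1).ne']

/-- recurrence lemma -/
lemma recur (x : ℕ → ℕ) (hx : StrictMono x) (S : Set ℕ) (hS : S.Infinite) (i : ℕ) (hi : 2 ≤ x i)
    (η : ℝ) (hη : 0 < η) (Q : ℕ → ℝ → Prop)
    (hQ : ∀ Λ : ℝ, ∃ T : ℕ, ∀ e, T ≤ e → ∀ l : ℝ, |l| ≤ Λ → Q e l) :
    ∃ m ∈ S, ∃ l : ℝ, Q (x m) l ∧ ∃ z ∈ FE x m, LL z = log (x m) + l ∧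
      ∃ p : ℤ, |LL z - LL (x i) - p| < η := by
  choose T hT using hQ
  have hnext : ∀ (n : ℕ) (s : ℝ), ∃ m ∈ S, n < m ∧ T (|LL (x i)| + s) ≤ x m := by
    intro n s
    obtain ⟨m, hm, hlt⟩ := hS.exists_gt (max n (T (|LL (x i)| + s)))
    exact ⟨m, hm, by omega, le_trans (show _ ≤ m by omega) (hx.id_le m)⟩
  choose nx hnS hnlt hnT using hnext
  let sq : ℕ → ℕ × ℝ := fun r => Nat.rec (i, 0)
    (fun _ p => (nx p.1 p.2, p.2 + log (x (nx p.1 p.2)))) r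
  have h0 : sq 0 = (i, 0) := rfl
  have hs : ∀ r, sq (r + 1) = (nx (sq r).1 (sq r).2,
      (sq r).2 + log (x (nx (sq r).1 (sq r).2))) := fun r => rfl
  have hs1 : ∀ r, (sq (r + 1)).1 = nx (sq r).1 (sq r).2 := fun r => rfl
  have hs2 : ∀ r, (sq (r + 1)).2 = (sq r).2 + log (x (sq (r + 1)).1) := fun r => rfl
  have hmono1 : StrictMono fun r => (sq r).1 :=
    strictMono_nat_of_lt_succ fun r => by rw [hs1]; exact hnlt _ _
  have hmono2 : Monotone fun r => (sq r).2 :=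
    monotone_nat_of_le_succ fun r => by
      rw [hs2]; have := log_natCast_nonneg (x (sq (r + 1)).1); linarith
  have hge : ∀ r, i ≤ (sq r).1 := fun r => hmono1.monotone (Nat.zero_le r)
  have hnn : ∀ r, 0 ≤ (sq r).2 := fun r => hmono2 (Nat.zero_le r)
  have hx1 : ∀ r, 1 ≤ x (sq r).1 := fun r => le_trans (by omega) (hx.monotone (hge r))
  have hy : ∀ r q, r ≤ q → ∃ y ∈ FE x (sq q).1, 2 ≤ y ∧
      LL y = LL (x i) + (sq q).2 - (sq r).2 := by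
    intro r q hrq
    induction q, hrq using Nat.le_induction with
    | base => exact ⟨x i, FE_mono x (hge r) (FE_self x i), hi, by ring⟩
    | succ q _ ih =>
      obtain ⟨y, hy1, hy2, hy3⟩ := ih
      refine ⟨y ^ x (sq (q + 1)).1, FE_pow x (hmono1 (Nat.lt_succ_self q)) hy1, ?_, ?_⟩
      · exact le_trans hy2 (Nat.le_self_pow (by have := hx1 (q + 1); omega) y)
      · rw [LL_pow hy2 (hx1 (q + 1)), hy3, hs2]; ring
  obtain ⟨N, hN⟩ := exists_nat_one_div_lt hη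
  have hNpos : (0 : ℝ) < (N : ℝ) + 1 := by positivity
  have hbin : ∀ r, ⌊Int.fract (sq r).2 * ((N : ℝ) + 1)⌋₊ < N + 1 := by
    intro r
    rw [Nat.floor_lt (mul_nonneg (Int.fract_nonneg _) hNpos.le)]
    push_cast
    have := Int.fract_lt_one (sq r).2
    nlinarith
  have key : ∀ r q, r < q → ⌊Int.fract (sq r).2 * ((N : ℝ) + 1)⌋₊ =
      ⌊Int.fract (sq q).2 * ((N : ℝ) + 1)⌋₊ →
      ∃ m ∈ S, ∃ l : ℝ, Q (x m) l ∧ ∃ z ∈ FE x m, LL z = log (x m) + l ∧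
      ∃ p : ℤ, |LL z - LL (x i) - p| < η := by
    intro r q hrq heq
    obtain ⟨k, rfl⟩ : ∃ k, q = k + 1 := ⟨q - 1, by omega⟩
    obtain ⟨y, hy1, hy2, hy3⟩ := hy r k (by omega)
    refine ⟨(sq (k + 1)).1, by rw [hs1]; exact hnS _ _, LL y, ?_, y ^ x (sq (k + 1)).1,
      FE_pow x (hmono1 (Nat.lt_succ_self k)) hy1, LL_pow hy2 (hx1 (k + 1)),
      ⌊(sq (k + 1)).2⌋ - ⌊(sq r).2⌋, ?_⟩
    · refine hT (|LL (x i)| + (sq k).2) _ (by rw [hs1]; exact hnT _ _) _ ?_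
      have h1 : (sq r).2 ≤ (sq k).2 := hmono2 (show r ≤ k by omega)
      have h2 := hnn r
      rw [hy3, abs_le]
      constructor
      · have := neg_abs_le (LL (x i)); linarith
      · have := le_abs_self (LL (x i)); linarith
    · rw [LL_pow hy2 (hx1 (k + 1)), hy3]
      have e1 : log (x (sq (k + 1)).1) + (LL (x i) + (sq k).2 - (sq r).2) - LL (x i) -
          ((⌊(sq (k + 1)).2⌋ - ⌊(sq r).2⌋ : ℤ) : ℝ) =
          Int.fract (sq (k + 1)).2 - Int.fract (sq r).2 := by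
        unfold Int.fract
        push_cast
        rw [hs2 k]; ring
      rw [e1]
      have a1 := Nat.floor_le (mul_nonneg (Int.fract_nonneg (sq r).2) hNpos.le)
      have a2 := Nat.lt_floor_add_one (Int.fract (sq r).2 * ((N : ℝ) + 1))
      have a3 := Nat.floor_le (mul_nonneg (Int.fract_nonneg (sq (k + 1)).2) hNpos.le)
      have a4 := Nat.lt_floor_add_one (Int.fract (sq (k + 1)).2 * ((N : ℝ) + 1))
      rw [heq] at a1 a2
      have hN' : 1 < η * ((N : ℝ) + 1) := by rwa [div_lt_iff₀ hNpos] at hN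
      rw [abs_lt]
      constructor
      · by_contra h
        push Not at h
        nlinarith
      · by_contra h
        push Not at h
        nlinarith
  obtain ⟨r, q, hne, heq⟩ := Finite.exists_ne_map_eq_of_infinite
    (fun r => (⟨_, hbin r⟩ : Fin (N + 1)))
  have heq' := congrArg Fin.val heq
  rcases lt_or_gt_of_ne hne with h | h
  · exact key r q h heq'
  · exact key q r h heq'.symm

noncomputable def rr (γ : ℝ) (k : ℕ) : ℝ := 1 / 8 - (k : ℝ) / 4 - γ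

noncomputable def β (γ : ℝ) : ℕ → ℝ
  | 0 => rr γ 0 + ⌈3 - rr γ 0⌉
  | 1 => rr γ 1 + ⌈5 - rr γ 1⌉
  | k + 2 => rr γ (k + 2) + ⌈exp (β γ k) - rr γ (k + 2)⌉

lemma β_int (γ : ℝ) (k : ℕ) : ∃ p : ℤ, β γ k = rr γ k + p := by
  match k with
  | 0 => exact ⟨_, rfl⟩
  | 1 => exact ⟨_, rfl⟩
  | k + 2 => exact ⟨_, rfl⟩

lemma β_lo (γ : ℝ) (k : ℕ) : exp (β γ k) ≤ β γ (k + 2) := by
  have := Int.le_ceil (exp (β γ k) - rr γ (k + 2))
  rw [β]; linarith

lemma β_hi (γ : ℝ) (k : ℕ) : β γ (k + 2) < exp (β γ k) + 1 := by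
  have := Int.ceil_lt_add_one (exp (β γ k) - rr γ (k + 2))
  rw [β]; linarith

lemma β_gap (γ : ℝ) (k : ℕ) : 3 ≤ β γ k ∧ β γ k + 1 ≤ β γ (k + 1) ∧
    β γ (k + 1) + 1 ≤ β γ (k + 2) := by
  induction k with
  | zero =>
    have a1 := Int.le_ceil (3 - rr γ 0)
    have a2 := Int.ceil_lt_add_one (3 - rr γ 0)
    have a3 := Int.le_ceil (5 - rr γ 1)
    have a4 := Int.ceil_lt_add_one (5 - rr γ 1)
    have b0 : β γ 0 = rr γ 0 + ⌈3 - rr γ 0⌉ := by rw [β]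
    have b1 : β γ 1 = rr γ 1 + ⌈5 - rr γ 1⌉ := by rw [β]
    have b2 := β_lo γ 0
    have b3 : exp 3 ≤ exp (β γ 0) := exp_le_exp.2 (by linarith)
    have b4 : (7 : ℝ) ≤ exp 3 := by
      have := quadratic_le_exp_of_nonneg (show (0 : ℝ) ≤ 3 by norm_num)
      linarith
    simp only [zero_add] at *
    refine ⟨by linarith, by linarith, by linarith⟩
  | succ k ih =>
    obtain ⟨h1, h2, h3⟩ := ih
    refine ⟨by linarith, h3, ?_⟩
    have a1 := β_lo γ (k + 1)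
    have a2 := β_hi γ k
    have a3 : exp (β γ k + 1) ≤ exp (β γ (k + 1)) := exp_le_exp.2 h2
    rw [exp_add] at a3
    have a4 := add_one_le_exp (β γ k)
    have a5 := add_one_le_exp (1 : ℝ)
    have a6 : β γ (k + 1 + 1) = β γ (k + 2) := rfl
    nlinarith

lemma β_mono (γ : ℝ) : StrictMono (β γ) :=
  strictMono_nat_of_lt_succ fun k => by have := (β_gap γ k).2.1; linarith

lemma β_ex (γ t : ℝ) : ∃ k, t < β γ k := by
  have : ∀ k : ℕ, (k : ℝ) ≤ β γ k := by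
    intro k
    induction k with
    | zero => have := (β_gap γ 0).1; simp; linarith
    | succ k ih => have := (β_gap γ k).2.1; push_cast; linarith
  obtain ⟨k, hk⟩ := exists_nat_gt t
  exact ⟨k, lt_of_lt_of_le hk (this k)⟩

open Classical in
noncomputable def K (γ t : ℝ) : ℕ := Nat.find (β_ex γ t)

lemma K_le (γ t : ℝ) (k : ℕ) : K γ t ≤ k ↔ t < β γ k := by
  classical
  constructor
  · intro h
    exact lt_of_lt_of_le (Nat.find_spec (β_ex γ t)) ((β_mono γ).monotone h)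
  · intro h
    exact Nat.find_min' _ h

lemma lt_K (γ t : ℝ) (k : ℕ) : k < K γ t ↔ β γ k ≤ t := by
  rw [← not_le, K_le, not_lt]

lemma far (γ Λ t l : ℝ) (ht : β γ 0 ≤ t) (hΛ : 17 * (Λ + 1) ≤ exp t) (hl : |l| ≤ Λ)
    (h : ∀ k, 1 / 16 ≤ |t - β γ k|) : K γ (exp t + l) = K γ t + 2 := by
  obtain ⟨l1, l2⟩ := abs_le.1 hl
  have e16 := add_one_le_exp (1 / 16 : ℝ)
  have ept := exp_pos t
  apply le_antisymm
  · rw [K_le]
    have h1 : t < β γ (K γ t) := (K_le γ t _).1 le_rfl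
    have h2 := h (K γ t)
    rw [abs_of_neg (by linarith)] at h2
    have h3 : exp (t + 1 / 16) ≤ exp (β γ (K γ t)) := exp_le_exp.2 (by linarith)
    rw [exp_add] at h3
    have := β_lo γ (K γ t)
    nlinarith
  · have h0 : 0 < K γ t := (lt_K γ t 0).2 ht
    obtain ⟨j, hj⟩ : ∃ j, K γ t = j + 1 := ⟨K γ t - 1, by omega⟩
    have h1 : β γ j ≤ t := (lt_K γ t j).1 (by omega)
    have h2 := h j
    rw [abs_of_nonneg (by linarith)] at h2
    have h3 : exp (β γ j + 1 / 16) ≤ exp t := exp_le_exp.2 (by linarith)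
    rw [exp_add] at h3
    have h4 := β_hi γ j
    have h5 := exp_pos (β γ j)
    have : j + 2 < K γ (exp t + l) := by
      rw [lt_K]; nlinarith
    omega

lemma near1 (γ t : ℝ) (k : ℕ) (h : |t - β γ k| < 1 / 16) : K γ t = k ∨ K γ t = k + 1 := by
  obtain ⟨l1, l2⟩ := abs_lt.1 h
  have h1 : K γ t ≤ k + 1 := by
    rw [K_le]; have := (β_gap γ k).2.1; linarith
  have h2 : k ≤ K γ t := by
    cases k with
    | zero => omega
    | succ j =>
      have : j < K γ t := by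
        rw [lt_K]; have := (β_gap γ j).2.1; linarith
      omega
  omega

lemma near2 (γ Λ t l : ℝ) (ht : β γ 0 + 1 ≤ t) (hΛ : 17 * (Λ + 1) ≤ exp t) (hl : |l| ≤ Λ)
    (k : ℕ) (h : |t - β γ k| < 1 / 16) :
    K γ (exp t + l) = k + 2 ∨ K γ (exp t + l) = k + 3 := by
  obtain ⟨l1, l2⟩ := abs_le.1 hl
  obtain ⟨l3, l4⟩ := abs_lt.1 h
  have e2 := add_one_le_exp (1 / 2 : ℝ)
  have ept := exp_pos t
  have h1 : K γ (exp t + l) ≤ k + 3 := by
    rw [K_le]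
    have a1 := β_lo γ (k + 1)
    have a2 := (β_gap γ k).2.1
    have a3 : exp (t + 1 / 2) ≤ exp (β γ (k + 1)) := exp_le_exp.2 (by linarith)
    rw [exp_add] at a3
    have a6 : β γ (k + 1 + 2) = β γ (k + 3) := rfl
    nlinarith
  have h2 : k + 1 < K γ (exp t + l) := by
    rw [lt_K]
    cases k with
    | zero => linarith
    | succ j =>
      have a1 := β_hi γ j
      have a2 := (β_gap γ j).2.1
      have a3 : exp (β γ j + 1 / 2) ≤ exp t := exp_le_exp.2 (by linarith)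
      rw [exp_add] at a3
      have a4 := exp_pos (β γ j)
      have a6 : β γ (j + 1 + 1) = β γ (j + 2) := rfl
      nlinarith
  omega

lemma big (B Λ : ℝ) : ∃ T : ℕ, 2 ≤ T ∧ ∀ e : ℕ, T ≤ e → B ≤ LL e ∧ Λ ≤ exp (LL e) ∧
    exp (LL e) = log e := by
  obtain ⟨T, hT⟩ := exists_nat_ge (exp (max (exp B) Λ))
  refine ⟨max T 2, by omega, fun e he => ?_⟩
  have h1 : (T : ℝ) ≤ e := by exact_mod_cast (le_trans (le_max_left _ _) he)
  have h2 : (1 : ℝ) < e := by exact_mod_cast (lt_of_lt_of_le (by omega) he : 1 < e)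
  have h3 : max (exp B) Λ ≤ log e := (le_log_iff_exp_le (by linarith)).2 (by linarith)
  have h4 : exp (LL e) = log e := exp_log (log_pos h2)
  refine ⟨?_, by rw [h4]; exact le_trans (le_max_right _ _) h3, h4⟩
  exact (le_log_iff_exp_le (log_pos h2)).2 (le_trans (le_max_left _ _) h3)

noncomputable def G (γ : ℝ) (n : ℕ) : ℝ := 2 * (LL n + γ + (K γ (LL n) : ℝ) / 4)

lemma main (γ : ℝ) (hγ : ∀ n, ∀ j : ℤ, G γ n ≠ j) (x : ℕ → ℕ) (hx : StrictMono x) :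
    ∃ a ∈ ⋃ n, FE x n, ∃ z ∈ ⋃ n, FE x n, ∃ p : ℤ, ⌊G γ z⌋ = ⌊G γ a⌋ + 2 * p + 1 := by
  classical
  let nr : ℕ → Prop := fun n => ∃ k, |LL (x n) - β γ k| < 1 / 16
  let kk : ℕ → ℕ := fun n => if h : nr n then h.choose else K γ (LL (x n))
  let f : ℕ → Prop × Fin 4 := fun n => (nr n, ⟨kk n % 4, Nat.mod_lt _ (by norm_num)⟩)
  obtain ⟨v, hv⟩ := Finite.exists_infinite_fiber f
  have hS : (f ⁻¹' {v}).Infinite := Set.infinite_coe_iff.1 hv
  obtain ⟨i, hiS, hi⟩ := hS.exists_gt 1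
  have hi2 : 2 ≤ x i := le_trans hi (hx.id_le i)
  have hcl : ∀ m ∈ f ⁻¹' {v}, (nr m ↔ nr i) ∧ ∃ q : ℤ, (kk m : ℝ) = kk i + 4 * q := by
    intro m hm
    have e : f m = f i := (show f m = v from hm).trans (show f i = v from hiS).symm
    have e1 : nr m = nr i := congrArg Prod.fst e
    have e2 : kk m % 4 = kk i % 4 := congrArg (fun p => (p.2 : ℕ)) e
    refine ⟨by rw [e1], (kk m / 4 : ℕ) - (kk i / 4 : ℕ), ?_⟩
    have : (kk m : ℤ) = kk i + 4 * (((kk m / 4 : ℕ) : ℤ) - ((kk i / 4 : ℕ) : ℤ)) := by omega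
    exact_mod_cast this
  have hQ : ∀ Λ : ℝ, ∃ T : ℕ, ∀ e, T ≤ e → ∀ l : ℝ, |l| ≤ Λ →
      (((∀ k, 1 / 16 ≤ |LL e - β γ k|) → K γ (log e + l) = K γ (LL e) + 2) ∧
      ∀ k, |LL e - β γ k| < 1 / 16 → K γ (log e + l) = k + 2 ∨ K γ (log e + l) = k + 3) := by
    intro Λ
    obtain ⟨T, -, hT⟩ := big (β γ 0 + 1) (17 * (Λ + 1))
    refine ⟨T, fun e he l hl => ?_⟩
    obtain ⟨b1, b2, b3⟩ := hT e he
    rw [← b3]
    exact ⟨far γ Λ _ l (by linarith) b2 hl, near2 γ Λ _ l b1 b2 hl⟩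
  have hai : x i ∈ ⋃ n, FE x n := Set.mem_iUnion.2 ⟨i, FE_self x i⟩
  by_cases hn : nr i
  · obtain ⟨m, hm, l, ⟨-, hq⟩, z, hz, hLz, p, hp⟩ :=
      recur x hx _ hS i hi2 (1 / 16) (by norm_num) _ hQ
    obtain ⟨c1, q, c2⟩ := hcl m hm
    have hm' : nr m := c1.2 hn
    have d1 : |LL (x i) - β γ (kk i)| < 1 / 16 := by
      simp only [kk, dif_pos hn]; exact hn.choose_spec
    have d2 : |LL (x m) - β γ (kk m)| < 1 / 16 := by
      simp only [kk, dif_pos hm']; exact hm'.choose_spec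
    have d3 := near1 γ _ _ d1
    have d4 := hq _ d2
    rw [← hLz] at d4
    obtain ⟨w, hw⟩ := β_int γ (kk i)
    unfold rr at hw
    obtain ⟨g1, g2⟩ := abs_lt.1 d1
    obtain ⟨g3, g4⟩ := abs_lt.1 hp
    have f1 : ⌊G γ (x i)⌋ = 2 * w := by
      rw [Int.floor_eq_iff]
      unfold G
      rcases d3 with d3 | d3 <;> rw [d3] <;> push_cast <;> constructor <;> linarith
    have f2 : ⌊G γ z⌋ = 2 * w + 2 * (p + q) + 1 := by
      rw [Int.floor_eq_iff]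
      unfold G
      rcases d4 with d4 | d4 <;> rw [d4] <;> push_cast <;> constructor <;> linarith
    exact ⟨x i, hai, z, Set.mem_iUnion.2 ⟨m, hz⟩, p + q, by rw [f1, f2]⟩
  · have u1 : (⌊G γ (x i)⌋ : ℝ) < G γ (x i) :=
      lt_of_le_of_ne (Int.floor_le _) (hγ _ _).symm
    have u2 := Int.lt_floor_add_one (G γ (x i))
    obtain ⟨m, hm, l, ⟨hq, -⟩, z, hz, hLz, p, hp⟩ :=
      recur x hx _ hS i hi2
        (min (G γ (x i) - ⌊G γ (x i)⌋) (⌊G γ (x i)⌋ + 1 - G γ (x i)) / 2)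
        (by apply half_pos; apply lt_min <;> linarith) _ hQ
    obtain ⟨c1, q, c2⟩ := hcl m hm
    have hm' : ¬ nr m := fun h => hn (c1.1 h)
    have d1 : kk i = K γ (LL (x i)) := by simp only [kk, dif_neg hn]
    have d2 : kk m = K γ (LL (x m)) := by simp only [kk, dif_neg hm']
    have d4 := hq (fun k => not_lt.1 fun h => hm' ⟨k, h⟩)
    rw [← hLz, ← d2] at d4
    obtain ⟨g3, g4⟩ := abs_lt.1 hp
    have m1 := min_le_left (G γ (x i) - ⌊G γ (x i)⌋) (⌊G γ (x i)⌋ + 1 - G γ (x i))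
    have m2 := min_le_right (G γ (x i) - ⌊G γ (x i)⌋) (⌊G γ (x i)⌋ + 1 - G γ (x i))
    have e1 : G γ (x i) = 2 * (LL (x i) + γ + (kk i : ℝ) / 4) := by rw [d1]; rfl
    have e2 : G γ z = 2 * (LL z + γ + ((kk m : ℝ) + 2) / 4) := by
      unfold G; rw [d4]; push_cast; ring
    refine ⟨x i, hai, z, Set.mem_iUnion.2 ⟨m, hz⟩, p + q, ?_⟩
    rw [Int.floor_eq_iff]
    push_cast
    constructor <;> linarith

theorem typeI : ∃ A B : Set ℕ, Disjoint A B ∧ A ∪ B = Set.univ ∧ ¬ ExpIP A ∧ ¬ ExpIP B := by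
  obtain ⟨γ, hγ⟩ := (Set.countable_range
    (fun p : ℕ × ℕ × ℤ => (p.2.2 : ℝ) / 2 - LL p.1 - (p.2.1 : ℝ) / 4)).dense_compl ℝ |>.nonempty
  have hγ' : ∀ n, ∀ j : ℤ, G γ n ≠ j := by
    intro n j h
    apply hγ
    refine ⟨(n, K γ (LL n), j), ?_⟩
    unfold G at h
    simp only
    linarith
  refine ⟨{n | Even ⌊G γ n⌋}, {n | Even ⌊G γ n⌋}ᶜ, disjoint_compl_right, Set.union_compl_self _,
    ?_, ?_⟩
  · rintro ⟨x, hx, hsub⟩
    obtain ⟨a, ha, z, hz, p, hp⟩ := main γ hγ' x hx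
    obtain ⟨u, hu⟩ : Even ⌊G γ a⌋ := hsub ha
    obtain ⟨w, hw⟩ : Even ⌊G γ z⌋ := hsub hz
    omega
  · rintro ⟨x, hx, hsub⟩
    obtain ⟨a, ha, z, hz, p, hp⟩ := main γ hγ' x hx
    obtain ⟨u, hu⟩ := Int.not_even_iff_odd.1 (hsub ha)
    obtain ⟨w, hw⟩ := Int.not_even_iff_odd.1 (hsub hz)
    omega

theorem typeII (r : ℕ) (c : ℕ → Fin r) : ∃ i, ExpIP2 {n | c n = i} := by
  obtain ⟨i, b, G, h1, h2, h3, h4, h5⟩ :=
    Pool.Agent.Lib.helper26.ExpII.towers (fun z => c (2 ^ z))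
  refine ⟨i, fun k => 2 ^ b k, fun _ _ h => Nat.pow_lt_pow_right (by norm_num) (h1 h), ?_⟩
  have key : ∀ k, ∀ y ∈ FE2 (fun k => 2 ^ b k) k, ∃ z ∈ G k, y = 2 ^ z := by
    intro k
    induction k with
    | zero => exact fun y hy => ⟨b 0, h3 0, hy⟩
    | succ k ih =>
      rintro y ((⟨w, hw, rfl⟩ | hy) | hy)
      · obtain ⟨z, hz, rfl⟩ := ih w hw
        exact ⟨_, h5 k z hz, by rw [← pow_mul]⟩
      · obtain ⟨z, hz, rfl⟩ := ih y hy
        exact ⟨z, h4 k hz, rfl⟩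
      · exact ⟨_, h3 (k + 1), hy⟩
  intro y hy
  obtain ⟨k, hk⟩ := Set.mem_iUnion.1 hy
  obtain ⟨z, hz, rfl⟩ := key k y hk
  exact h2 k z hz

theorem result :
    (∃ A B : Set ℕ, Disjoint A B ∧ A ∪ B = Set.univ ∧ ¬ ExpIP A ∧ ¬ ExpIP B) ∧
    ∀ (r : ℕ) (c : ℕ → Fin r), ∃ i, ExpIP2 {n | c n = i} :=
  ⟨typeI, typeII⟩

end Pool.Agent.Results.MP_952e1b_co.Types
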